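import Mathlib

set_option autoImplicit false

/-! A monotone class of graphs whose speed is not MC-finite. -/

namespace Pool.Agent.Results.MP_337eac_co.MonotoneNotMC

open SimpleGraph

/-- A class of finite graphs, given by its members with vertex set `Fin n`, for every `n`. -/
abbrev GraphClass := ∀ n : ℕ, Set (SimpleGraph (Fin n))

/-- The class is monotone: closed under isomorphism and under taking (not necessarily induced)
subgraphs. -/
def IsMonotone (C : GraphClass) : Prop :=
  ∀ (m n : ℕ) (H : SimpleGraph (Fin m)) (G : SimpleGraph (Fin n)),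
    G ∈ C n → H.IsContained G → H ∈ C m

/-- The speed: the number of graphs of the class on the vertex set `Fin n`. -/
noncomputable def speed (C : GraphClass) (n : ℕ) : ℤ := (C n).ncard

/-- MC-finiteness: for every `m ≥ 1` the sequence satisfies a linear recurrence modulo `m`. -/
def MCFinite (s : ℕ → ℤ) : Prop :=
  ∀ m : ℕ, 1 ≤ m → ∃ r p : ℕ, 1 ≤ r ∧ 1 ≤ p ∧ ∃ α : ℕ → ℤ,
    ∀ n, r ≤ n → s (n + p) ≡ ∑ i ∈ Finset.range p, α i * s (n + i) [ZMOD m]

/-! ### Parity sequences that are MC-finite are ultimately periodic -/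

theorem periodic_of_mcfinite {s : ℕ → ℤ} (h : MCFinite s) :
    ∃ N q : ℕ, 1 ≤ q ∧ ∀ n, N ≤ n → (s (n + q) : ZMod 2) = s n := by
  obtain ⟨r, p, hr, hp, α, hα⟩ := h 2 (by norm_num)
  have hrec : ∀ n, r ≤ n → (s (n + p) : ZMod 2) =
      ∑ i ∈ Finset.range p, (α i : ZMod 2) * (s (n + i) : ZMod 2) := by
    intro n hn
    have h1 := (ZMod.intCast_eq_intCast_iff _ _ 2).2 (hα n hn)
    rw [h1]
    push_cast
    rfl
  -- states
  let st : ℕ → (Fin p → ZMod 2) := fun n i => (s (n + i.1) : ZMod 2)
  have hst : ∀ a b, r ≤ a → r ≤ b → st a = st b → st (a + 1) = st (b + 1) := by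
    intro a b ha hb hab
    have hval : ∀ i, i < p → (s (a + i) : ZMod 2) = s (b + i) := by
      intro i hi
      exact congrFun hab ⟨i, hi⟩
    have hval2 : (s (a + p) : ZMod 2) = s (b + p) := by
      rw [hrec a ha, hrec b hb]
      apply Finset.sum_congr rfl
      intro i hi
      rw [hval i (Finset.mem_range.1 hi)]
    funext i
    show (s (a + 1 + i.1) : ZMod 2) = s (b + 1 + i.1)
    rw [show a + 1 + i.1 = a + (i.1 + 1) by ring, show b + 1 + i.1 = b + (i.1 + 1) by ring]
    rcases Nat.lt_or_ge (i.1 + 1) p with h | h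
    · exact hval _ h
    · have : i.1 + 1 = p := by have := i.2; omega
      rw [this]
      exact hval2
  -- pigeonhole
  obtain ⟨a, b, hab, heq⟩ := Finite.exists_ne_map_eq_of_infinite (fun n : ℕ => st (r + n))
  wlog hlt : a < b generalizing a b
  · exact this b a hab.symm heq.symm (by omega)
  refine ⟨r + a, b - a, by omega, ?_⟩
  have key : ∀ k, st (r + a + k) = st (r + b + k) := by
    intro k
    induction k with
    | zero => exact heq
    | succ k ih =>
      have h1 : r ≤ r + a + k := by omega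
      have h2 : r ≤ r + b + k := by omega
      exact hst _ _ h1 h2 ih
  intro n hn
  obtain ⟨k, rfl⟩ := Nat.exists_eq_add_of_le hn
  have := congrFun (key k) ⟨0, hp⟩
  show (s (r + a + k + (b - a)) : ZMod 2) = s (r + a + k)
  have e1 : r + a + k + (b - a) = r + b + k := by omega
  rw [e1]
  simpa [st] using this.symm

/-! ### The blow-ups of odd cycles -/

/-- The cycle on `ZMod l`. -/
def cyc (l : ℕ) : SimpleGraph (ZMod l) := SimpleGraph.fromRel (fun i j => j = i + 1)

theorem cyc_adj {l : ℕ} (hl : 2 ≤ l) (i j : ZMod l) :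
    (cyc l).Adj i j ↔ (j = i + 1 ∨ i = j + 1) := by
  haveI : Fact (1 < l) := ⟨hl⟩
  rw [cyc, fromRel_adj]
  constructor
  · exact fun h => h.2
  · intro h
    refine ⟨?_, h⟩
    rintro rfl
    have : (1 : ZMod l) = 0 := by
      rcases h with h | h <;> exact (left_eq_add.1 h)
    exact one_ne_zero this

/-- The vertex set: the class `i` has `2 ^ i` vertices. -/
abbrev VV (l : ℕ) : Type := Σ i : ZMod l, ZMod (2 ^ i.val)

/-- The blow-up of the cycle. -/
def FF (l : ℕ) : SimpleGraph (VV l) := (cyc l).comap Sigma.fst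

theorem card_VV (l : ℕ) [NeZero l] : Fintype.card (VV l) = 2 ^ l - 1 := by
  rw [Fintype.card_sigma]
  simp only [ZMod.card]
  have h1 : ∑ i : ZMod l, 2 ^ i.val = ∑ i ∈ Finset.range l, 2 ^ i := by
    apply Finset.sum_bij (fun (i : ZMod l) _ => i.val)
    · intro i _; exact Finset.mem_range.2 (ZMod.val_lt i)
    · intro i _ j _ h; exact ZMod.val_injective l h
    · intro b hb
      exact ⟨(b : ZMod l), Finset.mem_univ _, ZMod.val_cast_of_lt (Finset.mem_range.1 hb)⟩
    · intro i _; rfl
  rw [h1, Nat.geomSum_eq le_rfl]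
  simp

/-- The colourings with classes of sizes `2 ^ i`. -/
def Cols (l : ℕ) : Set (VV l → ZMod l) := {c | ∀ i, Nat.card {v // c v = i} = 2 ^ i.val}

theorem dist_of_sum {l : ℕ} [NeZero l] (d : ZMod l → ZMod l)
    (h : ∀ j, ∑ i ∈ Finset.univ.filter (fun i => d i = j), 2 ^ i.val = 2 ^ j.val) : d = id := by
  funext j
  have h1 := h j
  have h2 : (Finset.univ.filter (fun i => d i = j)).map ⟨ZMod.val, ZMod.val_injective l⟩ =
      ({j.val} : Finset ℕ) := by
    apply Finset.geomSum_injective (n := 2) le_rfl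
    simp only [Finset.sum_map, Function.Embedding.coeFn_mk, Finset.sum_singleton]
    exact h1
  have h3 : j.val ∈ (Finset.univ.filter (fun i => d i = j)).map
      ⟨ZMod.val, ZMod.val_injective l⟩ := by
    rw [h2]; exact Finset.mem_singleton_self _
  rw [Finset.mem_map] at h3
  obtain ⟨i, hi, hij⟩ := h3
  have : i = j := ZMod.val_injective l hij
  subst this
  exact (Finset.mem_filter.1 hi).2

/-- Rotation of every class. -/
def rot (l : ℕ) : VV l ≃ VV l :=
  Equiv.sigmaCongrRight (fun i => Equiv.addRight (1 : ZMod (2 ^ i.val)))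

theorem rot_iter {l : ℕ} (k : ℕ) (v : VV l) : (rot l)^[k] v = ⟨v.1, v.2 + k⟩ := by
  induction k with
  | zero => simp
  | succ k ih =>
    rw [Function.iterate_succ_apply', ih]
    simp only [rot, Equiv.sigmaCongrRight_apply, Sigma.map, id_eq, Equiv.coe_addRight]
    congr 1
    push_cast
    ring

theorem rot_pow {l : ℕ} [NeZero l] : (rot l)^[2 ^ l] = id := by
  funext v
  rw [rot_iter]
  obtain ⟨i, x⟩ := v
  simp only [id_eq]
  congr 1
  have h : ((2 ^ l : ℕ) : ZMod (2 ^ i.val)) = 0 := by
    rw [ZMod.natCast_eq_zero_iff]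
    exact pow_dvd_pow 2 (ZMod.val_lt i).le
  rw [h, add_zero]

theorem card_fiber_rot {l : ℕ} (c : VV l → ZMod l) (i : ZMod l) :
    Nat.card {v // (c ∘ rot l) v = i} = Nat.card {v // c v = i} := by
  apply Nat.card_congr
  exact (rot l).subtypeEquiv (fun a => by simp)

/-- The action on colourings. -/
def act (l : ℕ) : Equiv.Perm (Cols l) where
  toFun c := ⟨c.1 ∘ rot l, fun i => by rw [card_fiber_rot]; exact c.2 i⟩
  invFun c := ⟨c.1 ∘ (rot l).symm, fun i => by
    rw [← card_fiber_rot]
    have : (c.1 ∘ (rot l).symm) ∘ rot l = c.1 := by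
      funext v; simp
    rw [this]
    exact c.2 i⟩
  left_inv c := by
    apply Subtype.ext
    funext v
    simp
  right_inv c := by
    apply Subtype.ext
    funext v
    simp

theorem act_pow {l : ℕ} (k : ℕ) (c : Cols l) : ((act l ^ k) c).1 = c.1 ∘ (rot l)^[k] := by
  induction k with
  | zero => rfl
  | succ k ih =>
    rw [pow_succ', Function.iterate_succ]
    show ((act l ^ k) c).1 ∘ rot l = _
    rw [ih]
    rfl

theorem odd_of_unique_fixed {α : Type} [Fintype α] [DecidableEq α] (σ : Equiv.Perm α) (n : ℕ)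
    (h : σ ^ 2 ^ n = 1) (a : α) (ha : ∀ b, σ b = b ↔ b = a) : Odd (Fintype.card α) := by
  haveI : Fact (Nat.Prime 2) := ⟨Nat.prime_two⟩
  have h1 := Equiv.Perm.card_compl_support_modEq (p := 2) h
  have h2 : σ.supportᶜ = {a} := by
    ext b
    simp [ha]
  rw [h2, Finset.card_singleton] at h1
  rw [Nat.odd_iff]
  exact h1.symm

theorem card_cols_odd (l : ℕ) [NeZero l] : Odd (Cols l).ncard := by
  classical
  have hpow : (act l) ^ 2 ^ l = 1 := by
    ext1 c
    apply Subtype.ext
    rw [act_pow, rot_pow]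
    rfl
  have hfst : (Sigma.fst : VV l → ZMod l) ∈ Cols l := by
    intro i
    have : Nat.card {v : VV l // v.1 = i} = Nat.card (ZMod (2 ^ i.val)) := by
      apply Nat.card_congr
      exact Equiv.sigmaSubtype i
    rw [this, Nat.card_zmod]
  have h2 : (Cols l).ncard = Fintype.card (Cols l) := by
    rw [← Nat.card_coe_set_eq, Nat.card_eq_fintype_card]
  rw [h2]
  apply odd_of_unique_fixed (act l) l hpow ⟨Sigma.fst, hfst⟩
  intro c
  constructor
  · intro hfix
    obtain ⟨c, hc⟩ := c
    apply Subtype.ext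
    simp only
    have hfix' : c ∘ rot l = c := congrArg Subtype.val hfix
    have hstep : ∀ v, c (rot l v) = c v := fun v => congrFun hfix' v
    have hall : ∀ (k : ℕ) (v : VV l), c ((rot l)^[k] v) = c v := by
      intro k
      induction k with
      | zero => intro v; rfl
      | succ k ih => intro v; rw [Function.iterate_succ_apply', hstep, ih]
    set d : ZMod l → ZMod l := fun i => c ⟨i, 0⟩ with hd
    have hcd : ∀ v, c v = d v.1 := by
      rintro ⟨i, x⟩
      have := hall x.val ⟨i, 0⟩
      rw [rot_iter] at this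
      simp only [zero_add, ZMod.natCast_val, ZMod.cast_id', id_eq] at this
      exact this
    have hdid : d = id := by
      apply dist_of_sum
      intro j
      rw [← hc j]
      have : Nat.card {v // c v = j} = Fintype.card {v : VV l // d v.1 = j} := by
        rw [← Nat.card_eq_fintype_card]
        apply Nat.card_congr
        exact Equiv.subtypeEquivRight (fun v => by rw [hcd])
      rw [this, Fintype.card_subtype]
      have e2 : (Finset.univ.filter (fun v : VV l => d v.1 = j)) =
          (Finset.univ.filter (fun i => d i = j)).sigma (fun i => Finset.univ) := by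
        ext v
        simp
      rw [e2, Finset.card_sigma]
      simp [ZMod.card]
    funext v
    rw [hcd, hdid]
    rfl
  · rintro rfl
    apply Subtype.ext
    rfl

/-! ### Graphs isomorphic to the blow-up correspond to colourings -/

theorem cyc_twinfree {l : ℕ} (hl : 5 ≤ l) {i j : ZMod l}
    (h : ∀ k, (cyc l).Adj i k ↔ (cyc l).Adj j k) : i = j := by
  have h1 := (h (i + 1)).1 ((cyc_adj (by omega) _ _).2 (Or.inl rfl))
  have h2 := (h (i - 1)).1 ((cyc_adj (by omega) _ _).2 (Or.inr (by ring)))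
  rw [cyc_adj (by omega)] at h1 h2
  by_contra hne
  have e1 : j = i + 2 := by
    rcases h1 with h1 | h1
    · exact absurd (add_right_cancel h1) hne
    · rw [h1]; ring
  have e2 : j = i - 2 := by
    rcases h2 with h2 | h2
    · linear_combination -h2
    · exfalso
      apply hne
      linear_combination -h2
  have h4 : (4 : ZMod l) = 0 := by linear_combination e2 - e1
  have h5 : ((4 : ℕ) : ZMod l) = 0 := by exact_mod_cast h4
  rw [ZMod.natCast_eq_zero_iff] at h5
  have := Nat.le_of_dvd (by norm_num) h5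
  omega

/-- The labelled graphs on `Fin n` isomorphic to the blow-up. -/
def DD (l n : ℕ) : Set (SimpleGraph (Fin n)) := {G | Nonempty (G ≃g FF l)}

theorem card_fiber_fst {l : ℕ} (i : ZMod l) : Nat.card {v : VV l // v.1 = i} = 2 ^ i.val := by
  have : Nat.card {v : VV l // v.1 = i} = Nat.card (ZMod (2 ^ i.val)) := by
    apply Nat.card_congr
    exact Equiv.sigmaSubtype i
  rw [this, Nat.card_zmod]

theorem card_twins {l n : ℕ} [NeZero l] (hl : 5 ≤ l) (e : Fin n ≃ VV l) {c : VV l → ZMod l}
    (hc : c ∈ Cols l) (a : Fin n) :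
    Nat.card {b : Fin n // ∀ w, ((cyc l).comap (c ∘ e)).Adj b w ↔
      ((cyc l).comap (c ∘ e)).Adj a w} = 2 ^ (c (e a)).val := by
  rw [← hc (c (e a))]
  apply Nat.card_congr
  refine e.subtypeEquiv (fun b => ?_)
  constructor
  · intro h
    apply cyc_twinfree hl
    intro k
    have hk : 0 < Nat.card {v // c v = k} := by rw [hc k]; positivity
    obtain ⟨⟨v, hv⟩⟩ := (Nat.card_pos_iff.1 hk).1
    have := h (e.symm v)
    simp only [comap_adj, Function.comp_apply, Equiv.apply_symm_apply, hv] at this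
    exact this
  · intro h w
    simp only [comap_adj, Function.comp_apply]
    rw [h]

theorem DD_ncard {l n : ℕ} [NeZero l] (hl : 5 ≤ l) (e : Fin n ≃ VV l) :
    (DD l n).ncard = (Cols l).ncard := by
  classical
  have himg : DD l n = (fun c : VV l → ZMod l => (cyc l).comap (c ∘ e)) '' Cols l := by
    ext G
    constructor
    · rintro ⟨ψ⟩
      refine ⟨fun v => (ψ (e.symm v)).1, ?_, ?_⟩
      · intro i
        rw [← card_fiber_fst i]
        apply Nat.card_congr
        exact (e.symm.trans ψ.toEquiv).subtypeEquiv (fun a => Iff.rfl)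
      · ext a b
        simp only [comap_adj, Function.comp_apply, Equiv.symm_apply_apply]
        rw [← ψ.map_adj_iff]
        rfl
    · rintro ⟨c, hc, rfl⟩
      have hcard : ∀ i, Nonempty ({v // c v = i} ≃ ZMod (2 ^ i.val)) := by
        intro i
        have := hc i
        refine ⟨Fintype.equivOfCardEq ?_⟩
        rw [ZMod.card, ← this, Nat.card_eq_fintype_card]
      have f : ∀ i, {v // c v = i} ≃ ZMod (2 ^ i.val) := fun i => (hcard i).some
      let φ : VV l ≃ VV l := (Equiv.sigmaFiberEquiv c).symm.trans (Equiv.sigmaCongrRight f)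
      have hφ : ∀ v, (φ v).1 = c v := fun v => rfl
      refine ⟨⟨e.trans φ, ?_⟩⟩
      intro a b
      simp only [FF, comap_adj, Equiv.trans_apply, hφ, Function.comp_apply]
  rw [himg, Set.ncard_image_of_injOn]
  intro c hc c' hc' heq
  simp only at heq
  funext v
  have h1 := card_twins hl e hc (e.symm v)
  have h2 := card_twins hl e hc' (e.symm v)
  rw [heq, h2] at h1
  simp only [Equiv.apply_symm_apply] at h1
  exact (ZMod.val_injective l (Nat.pow_right_injective le_rfl h1)).symm

theorem DD_odd {l : ℕ} (hl : 5 ≤ l) : Odd (DD l (2 ^ l - 1)).ncard := by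
  haveI : NeZero l := ⟨by omega⟩
  have e : Fin (2 ^ l - 1) ≃ VV l := by
    rw [← card_VV l]
    exact (Fintype.equivFin _).symm
  rw [DD_ncard hl e]
  exact card_cols_odd l

theorem DD_empty {l n : ℕ} (hl : 5 ≤ l) (hn : n ≠ 2 ^ l - 1) : DD l n = ∅ := by
  haveI : NeZero l := ⟨by omega⟩
  rw [Set.eq_empty_iff_forall_notMem]
  rintro G ⟨ψ⟩
  apply hn
  have := Fintype.card_congr ψ.toEquiv
  rw [card_VV, Fintype.card_fin] at this
  exact this

/-! ### Odd cycles do not map to longer odd cycles -/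

theorem no_hom {l l' : ℕ} [NeZero l] (hl' : 2 ≤ l') (hodd : Odd l) (hlt : l < l') (hl : 2 ≤ l)
    (f : ZMod l → ZMod l') (hf : ∀ i j, (cyc l).Adj i j → (cyc l').Adj (f i) (f j)) : False := by
  have hstep : ∀ i, ∃ ε : ℤ, (ε = 1 ∨ ε = -1) ∧ f (i + 1) - f i = (ε : ZMod l') := by
    intro i
    have := hf i (i + 1) ((cyc_adj hl _ _).2 (Or.inl rfl))
    rw [cyc_adj hl'] at this
    rcases this with h | h
    · exact ⟨1, Or.inl rfl, by rw [h]; push_cast; ring⟩
    · exact ⟨-1, Or.inr rfl, by rw [h]; push_cast; ring⟩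
  choose ε hε1 hε2 using hstep
  have hsum : ((∑ i : ZMod l, ε i : ℤ) : ZMod l') = 0 := by
    push_cast
    rw [← Finset.sum_congr rfl (fun i _ => hε2 i), Finset.sum_sub_distrib, sub_eq_zero]
    exact Equiv.sum_comp (Equiv.addRight (1 : ZMod l)) f
  have habs : |∑ i : ZMod l, ε i| ≤ l := by
    calc |∑ i : ZMod l, ε i| ≤ ∑ i : ZMod l, |ε i| := Finset.abs_sum_le_sum_abs _ _
      _ = ∑ i : ZMod l, 1 := by
        apply Finset.sum_congr rfl
        intro i _
        rcases hε1 i with h | h <;> rw [h] <;> norm_num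
      _ = l := by simp [ZMod.card]
  have hzero : ∑ i : ZMod l, ε i = 0 := by
    rw [ZMod.intCast_zmod_eq_zero_iff_dvd] at hsum
    apply Int.eq_zero_of_abs_lt_dvd hsum
    calc |∑ i : ZMod l, ε i| ≤ l := habs
      _ < l' := by exact_mod_cast hlt
  have hpar : ((∑ i : ZMod l, ε i : ℤ) : ZMod 2) = (l : ZMod 2) := by
    push_cast
    calc ∑ i : ZMod l, ((ε i : ℤ) : ZMod 2) = ∑ i : ZMod l, 1 := by
          apply Finset.sum_congr rfl
          intro i _
          rcases hε1 i with h | h <;> rw [h] <;> decide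
      _ = (l : ZMod 2) := by simp [ZMod.card]
  rw [hzero] at hpar
  have : (l : ZMod 2) = 1 := by
    obtain ⟨k, rfl⟩ := hodd
    push_cast
    have : (2 : ZMod 2) = 0 := by decide
    rw [this]; ring
  rw [this] at hpar
  exact absurd hpar (by decide)

/-- An injective homomorphism `G → F` that is not an isomorphism. -/
def IsProper {V W : Type} {G : SimpleGraph V} {F : SimpleGraph W} (f : G →g F) : Prop :=
  Function.Injective f ∧ ¬ (Function.Surjective f ∧ ∀ a b, F.Adj (f a) (f b) → G.Adj a b)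

theorem not_proper_self {W : Type} [Finite W] {F : SimpleGraph W} (f : F →g F) :
    ¬ IsProper f := by
  rintro ⟨h1, h2⟩
  apply h2
  have hsurj := Finite.surjective_of_injective h1
  refine ⟨hsurj, ?_⟩
  let e : Equiv.Perm W := Equiv.ofBijective f ⟨h1, hsurj⟩
  have hmono : ∀ (k : ℕ) a b, F.Adj a b → F.Adj ((e ^ k) a) ((e ^ k) b) := by
    intro k
    induction k with
    | zero => intro a b h; exact h
    | succ k ih =>
      intro a b h
      rw [pow_succ', Equiv.Perm.mul_apply, Equiv.Perm.mul_apply]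
      exact f.map_adj (ih a b h)
  obtain ⟨k, hk0, hk⟩ := isOfFinOrder_iff_pow_eq_one.1 (isOfFinOrder_of_finite e)
  intro a b hab
  have h3 := hmono (k - 1) _ _ hab
  have h4 : ∀ x, (e ^ (k - 1)) (f x) = x := by
    intro x
    have : (e ^ (k - 1)) (e x) = (e ^ k) x := by
      rw [← Equiv.Perm.mul_apply, ← pow_succ, Nat.sub_add_cancel hk0]
    rw [hk] at this
    exact this
  rwa [h4, h4] at h3

theorem proper_comp {U V W : Type} {H : SimpleGraph U} {G : SimpleGraph V} {F : SimpleGraph W}
    (f : G →g F) (g : H →g G) (hg : Function.Injective g) (hf : IsProper f) :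
    IsProper (f.comp g) := by
  refine ⟨hf.1.comp hg, fun h => hf.2 ?_⟩
  obtain ⟨h1, h2⟩ := h
  have hfs : Function.Surjective f := by
    intro w
    obtain ⟨u, hu⟩ := h1 w
    exact ⟨g u, hu⟩
  have hgs : Function.Surjective g := by
    intro v
    obtain ⟨u, hu⟩ := h1 (f v)
    exact ⟨u, hf.1 hu⟩
  refine ⟨hfs, ?_⟩
  intro a b hab
  obtain ⟨a', rfl⟩ := hgs a
  obtain ⟨b', rfl⟩ := hgs b
  exact g.map_adj (h2 a' b' hab)

/-- The odd lengths used. -/
def Lens : Set ℕ := {l | Odd l ∧ 5 ≤ l}

theorem no_inj_hom {l l' : ℕ} (hl : l ∈ Lens) (hl' : l' ∈ Lens) (hne : l ≠ l')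
    (f : FF l →g FF l') (hf : Function.Injective f) : False := by
  haveI : NeZero l := ⟨by have := hl.2; omega⟩
  haveI : NeZero l' := ⟨by have := hl'.2; omega⟩
  have h1 := Fintype.card_le_of_injective f hf
  rw [card_VV, card_VV] at h1
  have h2 : 2 ^ l ≤ 2 ^ l' := by
    have : 0 < 2 ^ l := by positivity
    have : 0 < 2 ^ l' := by positivity
    omega
  have h3 : l ≤ l' := (Nat.pow_le_pow_iff_right (by norm_num)).1 h2
  refine no_hom (l := l) (l' := l') (by have := hl'.2; omega) hl.1 (lt_of_le_of_ne h3 hne)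
    (by have := hl.2; omega) (fun i => (f ⟨i, 0⟩).1) ?_
  intro i j hij
  exact f.map_adj (show (FF l).Adj ⟨i, 0⟩ ⟨j, 0⟩ from hij)

/-- The base class: graphs properly contained in some blow-up. -/
def C0 : GraphClass := fun n => {G | ∃ l ∈ Lens, ∃ f : G →g FF l, IsProper f}

/-- The class of all graphs contained in some blow-up. -/
def C1 : GraphClass := fun n => {G | ∃ l ∈ Lens, ∃ f : G →g FF l, Function.Injective f}

theorem C0_mono : IsMonotone C0 := by
  rintro m n H G ⟨l, hl, f, hf⟩ ⟨g⟩
  exact ⟨l, hl, f.comp g.toHom, proper_comp f g.toHom g.injective hf⟩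

theorem C1_mono : IsMonotone C1 := by
  rintro m n H G ⟨l, hl, f, hf⟩ ⟨g⟩
  exact ⟨l, hl, f.comp g.toHom, hf.comp g.injective⟩

theorem C1_diff (n : ℕ) : C1 n = C0 n ∪ ⋃ l ∈ Lens, DD l n := by
  ext G
  simp only [Set.mem_union, Set.mem_iUnion]
  constructor
  · rintro ⟨l, hl, f, hf⟩
    by_cases hp : Function.Surjective f ∧ ∀ a b, (FF l).Adj (f a) (f b) → G.Adj a b
    · right
      refine ⟨l, hl, ⟨⟨Equiv.ofBijective f ⟨hf, hp.1⟩, ?_⟩⟩⟩
      intro a b
      exact ⟨hp.2 a b, f.map_adj⟩
    · left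
      exact ⟨l, hl, f, hf, hp⟩
  · rintro (⟨l, hl, f, hf⟩ | ⟨l, hl, ⟨ψ⟩⟩)
    · exact ⟨l, hl, f, hf.1⟩
    · exact ⟨l, hl, ψ.toHom, ψ.injective⟩

theorem C0_disj (n : ℕ) {l : ℕ} (hl : l ∈ Lens) : Disjoint (C0 n) (DD l n) := by
  haveI : NeZero l := ⟨by have := hl.2; omega⟩
  rw [Set.disjoint_left]
  rintro G ⟨l', hl', f, hf⟩ ⟨ψ⟩
  by_cases h : l = l'
  · subst h
    exact not_proper_self (f.comp ψ.symm.toHom) (proper_comp f ψ.symm.toHom ψ.symm.injective hf)
  · exact no_inj_hom hl hl' h (f.comp ψ.symm.toHom) (hf.1.comp ψ.symm.injective)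

theorem speed_at {l : ℕ} (hl : l ∈ Lens) :
    (speed C1 (2 ^ l - 1) : ZMod 2) = speed C0 (2 ^ l - 1) + 1 := by
  have h1 : C1 (2 ^ l - 1) = C0 (2 ^ l - 1) ∪ DD l (2 ^ l - 1) := by
    rw [C1_diff]
    congr 1
    ext G
    simp only [Set.mem_iUnion]
    constructor
    · rintro ⟨l', hl', h⟩
      by_cases hll : l' = l
      · rwa [hll] at h
      · exfalso
        rw [DD_empty hl'.2] at h
        · exact h
        · intro heq
          have : 0 < 2 ^ l := by positivity
          have : 0 < 2 ^ l' := by positivity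
          have h2 : 2 ^ l' = 2 ^ l := by omega
          exact hll (Nat.pow_right_injective le_rfl h2)
    · intro h; exact ⟨l, hl, h⟩
  unfold speed
  rw [h1, Set.ncard_union_eq (C0_disj _ hl) (Set.toFinite _) (Set.toFinite _)]
  push_cast
  congr 1
  obtain ⟨k, hk⟩ := DD_odd hl.2
  rw [hk]
  push_cast
  have : (2 : ZMod 2) = 0 := by decide
  rw [this]; ring

theorem speed_not_at {n : ℕ} (hn : ∀ l ∈ Lens, n ≠ 2 ^ l - 1) : speed C1 n = speed C0 n := by
  have h1 : C1 n = C0 n := by
    rw [C1_diff]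
    have : (⋃ l ∈ Lens, DD l n) = ∅ := by
      simp only [Set.iUnion_eq_empty]
      intro l hl
      exact DD_empty hl.2 (hn l hl)
    rw [this, Set.union_empty]
  unfold speed
  rw [h1]

/-- There is a monotone (in particular hereditary) class of graphs whose speed is not
MC-finite. -/
theorem result : ∃ C : GraphClass, IsMonotone C ∧ ¬ MCFinite (speed C) := by
  by_contra hcon
  push Not at hcon
  obtain ⟨N0, q0, hq0, h0⟩ := periodic_of_mcfinite (hcon C0 C0_mono)
  obtain ⟨N1, q1, hq1, h1⟩ := periodic_of_mcfinite (hcon C1 C1_mono)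
  have mult : ∀ (s : ℕ → ℤ) (N q : ℕ), (∀ n, N ≤ n → (s (n + q) : ZMod 2) = s n) →
      ∀ t n, N ≤ n → (s (n + q * t) : ZMod 2) = s n := by
    intro s N q h t
    induction t with
    | zero => intro n _; simp
    | succ t ih =>
      intro n hn
      have : n + q * (t + 1) = (n + q * t) + q := by ring
      rw [this, h _ (by omega), ih n hn]
  set Q := q0 * q1 with hQ
  have hQ1 : 1 ≤ Q := Nat.mul_pos hq0 hq1
  -- a large odd length
  set l := 2 * (N0 + N1 + Q + 3) + 1 with hldef
  have hl : l ∈ Lens := ⟨⟨_, rfl⟩, by omega⟩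
  have hbig : l < 2 ^ l := Nat.lt_two_pow_self
  set n := 2 ^ l - 1 with hn
  have e0 := mult (speed C0) N0 q0 h0 q1 n (by omega)
  have e1 := mult (speed C1) N1 q1 h1 q0 n (by omega)
  rw [Nat.mul_comm q1 q0] at e1
  have hnot : ∀ l' ∈ Lens, n + q0 * q1 ≠ 2 ^ l' - 1 := by
    intro l' hl' heq
    have hp : 0 < 2 ^ l := by positivity
    have hp' : 0 < 2 ^ l' := by positivity
    have h2 : 2 ^ l' = 2 ^ l + Q := by omega
    have h3 : l < l' := by
      apply (Nat.pow_lt_pow_iff_right (a := 2) (by norm_num)).1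
      omega
    have h4 : 2 ^ (l + 1) ≤ 2 ^ l' := Nat.pow_le_pow_right (by norm_num) h3
    rw [pow_succ] at h4
    omega
  have h5 := speed_not_at hnot
  rw [h5, e0] at e1
  have h6 := speed_at hl
  rw [← hn, ← e1] at h6
  exact absurd (left_eq_add.1 h6) (by decide)

end Pool.Agent.Results.MP_337eac_co.MonotoneNotMC
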